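import Pool.Agent.Helper97.Speed.LawDefs

/-! # The walk after a candidate time (task 58, V6) -/

namespace Pool.Agent.Helper97.Speed

open MeasureTheory Filter Topology ENNReal PMap

namespace PMap

variable {m E : PMap} {r : ℕ}

/-- every period of the rotation is at least the degree -/
lemma IsHalfPlane.deg_le_of_period (h : m.IsHalfPlane) {d : ℕ} (hd : d ∈ m.E) {p : ℕ}
    (hp : 0 < p) (hper : m.rot^[p] d = d) : m.deg (m.org d) ≤ p := by
  classical
  have hF : {e | e ∈ m.E ∧ m.org e = m.org d} ⊆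
      (((Finset.range p).image (fun i => m.rot^[i] d) : Finset ℕ) : Set ℕ) := by
    rintro e ⟨h1, h2⟩
    obtain ⟨n, hn⟩ := h.exists_rot hd h1 h2.symm
    simp only [Finset.coe_image, Finset.coe_range, Set.mem_image, Set.mem_Iio]
    refine ⟨n % p, Nat.mod_lt _ hp, ?_⟩
    rw [← hn]
    exact Function.IsPeriodicPt.iterate_mod_apply hper n
  calc m.deg (m.org d)
      ≤ (((Finset.range p).image (fun i => m.rot^[i] d) : Finset ℕ) : Set ℕ).ncard :=
        Set.ncard_le_ncard hF (Finset.finite_toSet _)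
    _ ≤ p := by
        rw [Set.ncard_coe_finset]
        exact Finset.card_image_le.trans (by simp)

namespace Ok

lemma rev_eq (h : Ok m E r) : E.rev = m.rev := by
  obtain ⟨j, b, n, S, R, -⟩ := h; exact R.rev

lemma nxt_eq (h : Ok m E r) : E.nxt = m.nxt := by
  obtain ⟨j, b, n, S, R, -⟩ := h; exact R.nxt

lemma org_eq (h : Ok m E r) : E.org = m.org := by
  obtain ⟨j, b, n, S, R, -⟩ := h; exact R.org

lemma E_sub (h : Ok m E r) : E.E ⊆ m.E := by
  obtain ⟨j, b, n, S, R, -⟩ := h; exact R.E_subset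

lemma In_sub (h : Ok m E r) : E.In ⊆ m.In := by
  obtain ⟨j, b, n, S, R, -⟩ := h; rw [R.In]; exact Set.sdiff_subset

lemma rot_eq (hok : Ok m E r) {d : ℕ} (hd : d ∈ E.In) : m.rot d = E.rot d := by
  rw [rot_of_mem (hok.In_sub hd), rot_of_mem hd, hok.rev_eq, hok.nxt_eq]

lemma mem_In_of_inner (hok : Ok m E r) {d : ℕ} (hd : d ∈ E.E) (hnb : ¬ E.OnBd (E.org d)) :
    d ∈ E.In := by
  by_contra h
  obtain ⟨i, rfl⟩ := hok.hp₂.pre.exists_of_not_mem hd h
  exact hnb ⟨i + 1, (hok.hp₂.org_rev_bd i).symm⟩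

lemma rot_iter_inner (hok : Ok m E r) {d : ℕ} (hd : d ∈ E.E) (hnb : ¬ E.OnBd (E.org d)) (i : ℕ) :
    m.rot^[i] d = E.rot^[i] d := by
  induction i with
  | zero => rfl
  | succ i ih =>
    rw [Function.iterate_succ_apply', Function.iterate_succ_apply', ih]
    have h1 := hok.hp₂.pre.rot_iter_maps (x := E.org d) ⟨hd, rfl⟩ i
    exact hok.rot_eq (hok.mem_In_of_inner h1.1 (by rw [h1.2]; exact hnb))

lemma step_inner (hok : Ok m E r) {d : ℕ} (hd : d ∈ E.E) (hnb : ¬ E.OnBd (E.org d)) (i : ℕ) :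
    m.step d i = E.step d i := by
  rw [PMap.step, PMap.step, hok.rot_iter_inner hd hnb, hok.rev_eq]

end Ok

/-- interior vertices have the same degree -/
theorem deg_eq_of_inner (hok : Ok m E r) {x : ℕ} (hx : ∃ d ∈ E.E, E.org d = x)
    (hx' : ¬ E.OnBd x) : m.deg x = E.deg x := by
  have : {d | d ∈ m.E ∧ m.org d = x} = {d | d ∈ E.E ∧ E.org d = x} := by
    ext d
    constructor
    · rintro ⟨h1, h2⟩
      by_cases h3 : d ∈ E.E
      · exact ⟨h3, by rw [hok.org_eq]; exact h2⟩
      · exfalso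
        obtain ⟨e, he, hex⟩ := hx
        obtain ⟨j, b, n, S, R, -⟩ := id hok
        obtain ⟨k, -, -, hk⟩ := R.interface he h1 h3 (by rw [h2, ← R.org, hex])
        exact hx' ⟨k, by rw [← hk, ← R.org, hex]⟩
    · rintro ⟨h1, h2⟩
      exact ⟨hok.E_sub h1, by rw [← hok.org_eq]; exact h2⟩
  rw [deg, deg, this]

/-! ### candidates -/

lemma Cand.mem (hc : Cand m E r) : r ∈ m.E ∧ r ∉ E.E := by
  have h1 : r ∈ m.outD E r := by rw [hc.2]; rfl
  exact ⟨h1.1, h1.2.2⟩

lemma Cand.cases (hc : Cand m E r) {d : ℕ} (hd : d ∈ m.E) (hdo : m.org d = m.org r) :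
    d = r ∨ d ∈ E.E := by
  by_cases h : d ∈ E.E
  · exact Or.inr h
  · left
    have h1 : d ∈ m.outD E r := ⟨hd, hdo, h⟩
    rw [hc.2] at h1
    exact h1

theorem cand_deg (hok : Ok m E r) (hc : Cand m E r) : m.deg (m.org r) = E.deg (m.org r) + 1 := by
  have : {d | d ∈ m.E ∧ m.org d = m.org r} = insert r {d | d ∈ E.E ∧ E.org d = m.org r} := by
    ext d
    constructor
    · rintro ⟨h1, h2⟩
      rcases hc.cases h1 h2 with h3 | h3
      · exact Or.inl h3
      · exact Or.inr ⟨h3, by rw [hok.org_eq]; exact h2⟩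
    · rintro (rfl | ⟨h1, h2⟩)
      · exact ⟨hc.mem.1, rfl⟩
      · exact ⟨hok.E_sub h1, by rwa [hok.org_eq] at h2⟩
  rw [deg, deg, this, Set.ncard_insert_of_notMem (fun h => hc.mem.2 h.1) (hok.hp₂.pre.fin _)]

lemma Cand.org_bd (hc : Cand m E r) :
    E.org (E.bd (E.idx (m.org r))) = m.org r := V_idx hc.1

/-- the first rotation from the candidate dart -/
lemma Cand.rot_r (hok : Ok m E r) (hc : Cand m E r) : m.rot r = E.bd (E.idx (m.org r)) := by
  set l := E.idx (m.org r) with hl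
  have hbl : E.bd l ∈ E.E := mem_E_of_mem (hok.hp₂.bd_mem l)
  have hbo : E.org (E.bd l) = m.org r := Cand.org_bd hc
  have hbo' : m.org (E.bd l) = m.org r := by rw [hok.org_eq] at hbo; exact hbo
  have h1 := hok.hp.pre.rot_maps (x := m.org r) (d := r) ⟨hc.mem.1, rfl⟩
  rcases hc.cases h1.1 h1.2 with h2 | h2
  · exfalso
    obtain ⟨n, hn⟩ := hok.hp.exists_rot hc.mem.1 (hok.E_sub hbl) hbo'.symm
    rw [Function.iterate_fixed h2 n] at hn
    exact hc.mem.2 (hn ▸ hbl)
  · by_contra hne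
    -- surjectivity of the rotation of `E`
    have h3 : E.org (m.rot r) = m.org r := by rw [hok.org_eq]; exact h1.2
    obtain ⟨n, hn⟩ := hok.hp₂.pre.rot_period h2
    have h4 := hok.hp₂.pre.rot_iter_maps (x := m.org r) (d := m.rot r) ⟨h2, h3⟩ n
    rw [Function.iterate_succ_apply'] at hn
    set e := E.rot^[n] (m.rot r) with he
    have h5 : e ∈ E.In := by
      by_contra h6
      obtain ⟨i, hi⟩ := hok.hp₂.pre.exists_of_not_mem h4.1 h6
      rw [hi, hok.hp₂.pre.rot_rev_bd] at hn
      have h7 := h4.2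
      rw [hi, hok.hp₂.org_rev_bd, ← hbo] at h7
      have h8 := hok.hp₂.bd_simple _ _ h7
      rw [h8] at hn
      exact hne hn.symm
    rw [← hok.rot_eq h5] at hn
    have h6 := hok.hp.pre.rot_inj (hok.E_sub h4.1) hc.mem.1 hn
    exact hc.mem.2 (h6 ▸ h4.1)

lemma Cand.rot_iter (hok : Ok m E r) (hc : Cand m E r) {k : ℕ} (hk : k < E.deg (m.org r)) :
    m.rot^[k + 1] r = E.rot^[k] (E.bd (E.idx (m.org r))) := by
  rw [Function.iterate_succ_apply, Cand.rot_r hok hc]
  set l := E.idx (m.org r) with hl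
  have hbl : E.bd l ∈ E.E := mem_E_of_mem (hok.hp₂.bd_mem l)
  have hbo : E.org (E.bd l) = m.org r := Cand.org_bd hc
  induction k with
  | zero => rfl
  | succ k ih =>
    rw [Function.iterate_succ_apply', Function.iterate_succ_apply', ih (by omega)]
    have h4 := hok.hp₂.pre.rot_iter_maps (x := m.org r) (d := E.bd l) ⟨hbl, hbo⟩ k
    apply hok.rot_eq
    by_contra h6
    obtain ⟨i, hi⟩ := hok.hp₂.pre.exists_of_not_mem h4.1 h6
    have h7 := h4.2
    rw [hi, hok.hp₂.org_rev_bd, ← hbo] at h7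
    have h8 := hok.hp₂.bd_simple _ _ h7
    have h9 : E.rot^[k + 1] (E.bd l) = E.bd l := by
      rw [Function.iterate_succ_apply', hi, hok.hp₂.pre.rot_rev_bd, h8]
    have h10 := hok.hp₂.deg_le_of_period hbl (Nat.succ_pos k) h9
    rw [hbo] at h10
    omega

lemma Cand.step (hok : Ok m E r) (hc : Cand m E r) {k : ℕ} (hk : k < E.deg (m.org r)) :
    m.step r (k + 1) = E.step (E.bd (E.idx (m.org r))) k := by
  rw [PMap.step, PMap.step, Cand.rot_iter hok hc hk, hok.rev_eq]

/-- as long as the walk avoids the boundary of the remaining map, it is a walk in the remaining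
map -/
theorem cand_run (hok : Ok m E r) (hc : Cand m E r) (b : ℕ → ℕ) (hb : 1 ≤ b 0)
    (hb' : b 0 < m.deg (m.org r)) (i : ℕ) (hi : 1 ≤ i)
    (hav : (∀ j, 1 ≤ j → j < i → ¬ E.OnBd (m.pos r b j)) ∨
      (∀ j, 1 ≤ j → j < i → ¬ E.OnBd (E.pos (E.bd (E.idx (m.org r))) (cns (b 0 - 1) (sh 1 b)) j))) :
    m.run r b i = E.run (E.bd (E.idx (m.org r))) (cns (b 0 - 1) (sh 1 b)) i := by
  have hbl : E.bd (E.idx (m.org r)) ∈ E.E := mem_E_of_mem (hok.hp₂.bd_mem _)
  induction i, hi using Nat.le_induction with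
  | base =>
    rw [cand_deg hok hc] at hb'
    have h1 := Cand.step hok hc (k := b 0 - 1) (by omega)
    rw [Nat.sub_add_cancel hb] at h1
    exact h1
  | succ i hi ih =>
    have h1 := ih (hav.imp (fun h j h1 h2 => h j h1 (by omega)) (fun h j h1 h2 => h j h1 (by omega)))
    rw [run, run, h1]
    have h2 : cns (b 0 - 1) (sh 1 b) i = b i := by
      obtain ⟨i, rfl⟩ : ∃ i', i = i' + 1 := ⟨i - 1, by omega⟩
      show b (1 + i) = b (i + 1)
      rw [add_comm]
    rw [h2]
    refine hok.step_inner (hok.hp₂.pre.run_mem hbl _ _) ?_ _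
    rcases hav with h | h
    · have h3 := h i hi (Nat.lt_succ_self i)
      rw [pos, h1] at h3
      rw [hok.org_eq]
      exact h3
    · exact h i hi (Nat.lt_succ_self i)

end PMap

/-- decomposition according to the first port -/
lemma ports_split {D : List ℕ → ℕ} (hD : 0 < D []) {S : Set (ℕ → ℕ)} (hS : MeasurableSet S) :
    ports D S = ∑' k : ℕ, if k < D [] then
      (D [] : ℝ≥0∞)⁻¹ * ports (fun v => D (k :: v)) {c | cns k c ∈ S} else 0 := by
  have hcs : ∀ a : ℕ → ℕ, cns (a 0) (sh 1 a) = a := by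
    intro a
    funext i
    rcases i with _ | i
    · rfl
    · show a (1 + i) = a (i + 1)
      rw [add_comm]
  have hm : ∀ k, MeasurableSet {c | cns k c ∈ S} := fun k => measurable_cns k hS
  have e : S = ⋃ k : ℕ, {a : ℕ → ℕ | a 0 = k ∧ sh 1 a ∈ {c | cns k c ∈ S}} := by
    ext a
    simp only [Set.mem_iUnion, Set.mem_ofPred_eq]
    constructor
    · intro h; exact ⟨a 0, rfl, by rw [hcs]; exact h⟩
    · rintro ⟨k, rfl, h⟩
      rwa [hcs] at h
  have h0 : Measurable (fun a : ℕ → ℕ => a 0) := measurable_pi_apply 0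
  conv_lhs => rw [e]
  rw [measure_iUnion]
  · exact tsum_congr fun k => ports_step hD k (hm k)
  · intro k k' hk
    refine Set.disjoint_left.2 fun a h1 h2 => hk ?_
    exact h1.1.symm.trans h2.1
  · intro k
    exact MeasurableSet.inter (h0 (MeasurableSet.singleton k)) (measurable_sh 1 (hm k))

namespace PMap

variable {m E : PMap} {r : ℕ}

lemma pos_cns (r k : ℕ) (c : ℕ → ℕ) (i : ℕ) :
    m.pos r (cns k c) (i + 1) = m.pos (m.step r k) c i := by
  have h1 := m.run_add r (cns k c) 1 i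
  have h2 : sh 1 (cns k c) = c := by
    funext j
    show cns k c (1 + j) = c j
    rw [add_comm]
    rfl
  rw [h2] at h1
  rw [pos, pos, add_comm i 1, h1]
  rfl

lemma measurableSet_avoidM (m : PMap) (r : ℕ) (Q : ℕ → Prop) :
    MeasurableSet {a : ℕ → ℕ | ∀ i, Q (m.pos r a i)} := by
  have e : {a : ℕ → ℕ | ∀ i, Q (m.pos r a i)} =
      ⋂ i, {a | pre a i ∈ {v | Q (m.org (m.dart r v))}} := by
    ext a
    simp only [Set.mem_ofPred_eq, Set.mem_iInter, pos, run_eq]
  rw [e]
  exact MeasurableSet.iInter fun i => measurableSet_pre i _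

lemma measurableSet_avoid' (m : PMap) (r : ℕ) (Q : ℕ → Prop) :
    MeasurableSet {a : ℕ → ℕ | ∀ i, 1 ≤ i → Q (m.pos r a i)} := by
  have e : {a : ℕ → ℕ | ∀ i, 1 ≤ i → Q (m.pos r a i)} =
      ⋂ i, {a | pre a i ∈ {v | 1 ≤ i → Q (m.org (m.dart r v))}} := by
    ext a
    simp only [Set.mem_ofPred_eq, Set.mem_iInter, pos, run_eq]
  rw [e]
  exact MeasurableSet.iInter fun i => measurableSet_pre i _

/-- the walks in `m` and `E` started from an interior vertex of `E` have the same law, as long as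
they avoid the boundary of `E` -/
lemma ports_inner (hok : Ok m E r) {s : ℕ} (hs : s ∈ E.E) {B : Set (ℕ → ℕ)}
    (hB : MeasurableSet B) :
    ports (m.dg s) {c | (∀ i, ¬ E.OnBd (m.pos s c i)) ∧ c ∈ B} =
      ports (E.dg s) {c | (∀ i, ¬ E.OnBd (E.pos s c i)) ∧ c ∈ B} := by
  have hsm : s ∈ m.E := hok.E_sub hs
  -- the good words
  set G : Set (List ℕ) := {v | ∀ i ≤ v.length, ¬ E.OnBd (m.org (m.dart s (v.take i)))} with hG
  set G' : Set (List ℕ) := {v | ∀ i ≤ v.length, ¬ E.OnBd (E.org (E.dart s (v.take i)))} with hG'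
  have key : ∀ v : List ℕ, (v ∈ G ∨ v ∈ G') → m.dart s v = E.dart s v := by
    intro v
    induction v using List.reverseRecOn with
    | nil => intro _; rfl
    | append_singleton v k ih =>
      intro hv
      have hv' : v ∈ G ∨ v ∈ G' := by
        rcases hv with hv | hv
        · left
          intro i hi
          have := hv i (by rw [List.length_append]; omega)
          rwa [List.take_append_of_le_length hi] at this
        · right
          intro i hi
          have := hv i (by rw [List.length_append]; omega)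
          rwa [List.take_append_of_le_length hi] at this
      have h1 := ih hv'
      rw [dart_append, dart_append, h1]
      have h2 : ¬ E.OnBd (E.org (E.dart s v)) := by
        rcases hv' with h3 | h3
        · have := h3 v.length le_rfl
          rwa [List.take_length, h1, ← hok.org_eq] at this
        · have := h3 v.length le_rfl
          rwa [List.take_length] at this
      exact hok.step_inner (hok.hp₂.pre.dart_mem hs v) h2 k
  have hGG : G = G' := by
    ext v
    constructor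
    · intro hv i hi
      have h1 : v.take i ∈ G := by
        intro i' hi'
        rw [List.take_take]
        exact hv _ (by simp at hi'; omega)
      rw [← key _ (Or.inl h1), hok.org_eq]
      exact hv i hi
    · intro hv i hi
      have h1 : v.take i ∈ G' := by
        intro i' hi'
        rw [List.take_take]
        exact hv _ (by simp at hi'; omega)
      rw [key _ (Or.inr h1), ← hok.org_eq]
      exact hv i hi
  have hdg : ∀ v ∈ G, m.dg s v = E.dg s v := by
    intro v hv
    have h1 := key v (Or.inl hv)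
    have h2 := hv v.length le_rfl
    rw [List.take_length] at h2
    rw [dg, dg, ← h1, hok.org_eq]
    exact deg_eq_of_inner hok ⟨E.dart s v, hok.hp₂.pre.dart_mem hs v, by rw [h1, hok.org_eq]⟩ h2
  have e1 : {c | (∀ i, ¬ E.OnBd (m.pos s c i)) ∧ c ∈ B} = B ∩ {a | ∀ n, pre a n ∈ G} := by
    ext c
    simp only [Set.mem_ofPred_eq, Set.mem_inter_iff]
    rw [and_comm]
    refine and_congr_right fun _ => ?_
    constructor
    · intro h n i hi
      rw [length_pre] at hi
      rw [← pre_take c hi, ← run_eq]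
      exact h i
    · intro h i
      have := h i i (by simp)
      rwa [← pre_take c le_rfl, ← run_eq] at this
  have e2 : {c | (∀ i, ¬ E.OnBd (E.pos s c i)) ∧ c ∈ B} = B ∩ {a | ∀ n, pre a n ∈ G} := by
    rw [hGG]
    ext c
    simp only [Set.mem_ofPred_eq, Set.mem_inter_iff]
    rw [and_comm]
    refine and_congr_right fun _ => ?_
    constructor
    · intro h n i hi
      rw [length_pre] at hi
      rw [← pre_take c hi, ← run_eq]
      exact h i
    · intro h i
      have := h i i (by simp)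
      rwa [← pre_take c le_rfl, ← run_eq] at this
  rw [e1, e2]
  exact ports_congr (hok.hp.pre.dg_pos hsm) (hok.hp₂.pre.dg_pos hs) G hdg hB

theorem cand_future (hok : Ok m E r) (hc : Cand m E r) {B : Set (ℕ → ℕ)} (hB : MeasurableSet B) :
    ports (m.dg r) {b | 1 ≤ b 0 ∧ b 0 < m.deg (m.org r) ∧
        (∀ i, 1 ≤ i → ¬ E.OnBd (m.pos r b i)) ∧ cns (b 0 - 1) (sh 1 b) ∈ B} =
      ((E.deg (m.org r) : ℝ≥0∞) / ((E.deg (m.org r) : ℝ≥0∞) + 1)) *
        ports (E.dg (E.bd (E.idx (m.org r))))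
          {a | (∀ i, 1 ≤ i → ¬ E.OnBd (E.pos (E.bd (E.idx (m.org r))) a i)) ∧ a ∈ B} := by
  have hbl : E.bd (E.idx (m.org r)) ∈ E.E := mem_E_of_mem (hok.hp₂.bd_mem _)
  have hbo : E.org (E.bd (E.idx (m.org r))) = m.org r := Cand.org_bd hc
  have hdeg := cand_deg hok hc
  have hDE : E.dg (E.bd (E.idx (m.org r))) [] = E.deg (m.org r) := by
    show E.deg (E.org (E.bd (E.idx (m.org r)))) = _
    rw [hbo]
  have hDm : m.dg r [] = E.deg (m.org r) + 1 := hdeg
  have hpos : 0 < E.deg (m.org r) := by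
    have := hok.hp₂.pre.deg_pos hbl
    rwa [hbo] at this
  have h0 : Measurable (fun a : ℕ → ℕ => a 0) := measurable_pi_apply 0
  have hmc : Measurable (fun b : ℕ → ℕ => cns (b 0 - 1) (sh 1 b)) := by
    refine measurable_pi_iff.2 fun n => ?_
    rcases n with _ | n
    · exact (measurable_of_countable (fun k : ℕ => k - 1)).comp h0
    · exact measurable_pi_apply (1 + n)
  have hset1 : MeasurableSet {b : ℕ → ℕ | 1 ≤ b 0 ∧ b 0 < m.deg (m.org r) ∧
        (∀ i, 1 ≤ i → ¬ E.OnBd (m.pos r b i)) ∧ cns (b 0 - 1) (sh 1 b) ∈ B} := by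
    refine MeasurableSet.inter ?_ (MeasurableSet.inter ?_ (MeasurableSet.inter ?_ ?_))
    · exact h0 (measurableSet_Ici (a := 1))
    · exact h0 (measurableSet_Iio (a := m.deg (m.org r)))
    · exact measurableSet_avoid' m r (fun x => ¬ E.OnBd x)
    · exact hmc hB
  have hset2 : MeasurableSet {a : ℕ → ℕ |
      (∀ i, 1 ≤ i → ¬ E.OnBd (E.pos (E.bd (E.idx (m.org r))) a i)) ∧ a ∈ B} :=
    (measurableSet_avoid' E _ (fun x => ¬ E.OnBd x)).inter hB
  rw [ports_split (by rw [hDm]; omega) hset1, ports_split (by rw [hDE]; exact hpos) hset2,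
    tsum_eq_zero_add' ENNReal.summable, ← ENNReal.tsum_mul_left]
  have hz : {c : ℕ → ℕ | cns 0 c ∈ {b : ℕ → ℕ | 1 ≤ b 0 ∧ b 0 < m.deg (m.org r) ∧
        (∀ i, 1 ≤ i → ¬ E.OnBd (m.pos r b i)) ∧ cns (b 0 - 1) (sh 1 b) ∈ B}} = ∅ := by
    ext c
    simp only [Set.mem_ofPred_eq, Set.mem_empty_iff_false, iff_false]
    rintro ⟨h1, -⟩
    exact absurd h1 (by show ¬ 1 ≤ 0; omega)
  rw [hz, measure_empty, mul_zero, ite_self, zero_add]
  refine tsum_congr fun k => ?_
  rw [hDm, hDE]
  by_cases hk : k < E.deg (m.org r)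
  · rw [if_pos hk, if_pos (by omega)]
    have hst := Cand.step hok hc hk
    have hsE : E.step (E.bd (E.idx (m.org r))) k ∈ E.E := hok.hp₂.pre.step_mem hbl k
    have hsh : ∀ c : ℕ → ℕ, sh 1 (cns (k + 1) c) = c := by
      intro c; funext j
      show cns (k + 1) c (1 + j) = c j
      rw [add_comm 1 j]
      rfl
    have e1 : {c : ℕ → ℕ | cns (k + 1) c ∈ {b : ℕ → ℕ | 1 ≤ b 0 ∧ b 0 < m.deg (m.org r) ∧
        (∀ i, 1 ≤ i → ¬ E.OnBd (m.pos r b i)) ∧ cns (b 0 - 1) (sh 1 b) ∈ B}} =
        {c | (∀ i, ¬ E.OnBd (m.pos (E.step (E.bd (E.idx (m.org r))) k) c i)) ∧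
          c ∈ {c | cns k c ∈ B}} := by
      ext c
      simp only [Set.mem_ofPred_eq]
      constructor
      · rintro ⟨-, -, h3, h4⟩
        refine ⟨fun i => ?_, ?_⟩
        · have := h3 (i + 1) (by omega)
          rwa [pos_cns, hst] at this
        · rw [hsh] at h4
          exact h4
      · rintro ⟨h3, h4⟩
        refine ⟨?_, ?_, ?_, ?_⟩
        · show 1 ≤ k + 1; omega
        · show k + 1 < _; omega
        · intro i hi
          obtain ⟨i, rfl⟩ : ∃ i', i = i' + 1 := ⟨i - 1, by omega⟩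
          rw [pos_cns, hst]
          exact h3 i
        · rw [hsh]
          exact h4
    have e2 : {c : ℕ → ℕ | cns k c ∈ {a : ℕ → ℕ |
        (∀ i, 1 ≤ i → ¬ E.OnBd (E.pos (E.bd (E.idx (m.org r))) a i)) ∧ a ∈ B}} =
        {c | (∀ i, ¬ E.OnBd (E.pos (E.step (E.bd (E.idx (m.org r))) k) c i)) ∧
          c ∈ {c | cns k c ∈ B}} := by
      ext c
      simp only [Set.mem_ofPred_eq]
      refine and_congr_left fun _ => ?_
      constructor
      · intro h3 i
        have := h3 (i + 1) (by omega)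
        rwa [pos_cns] at this
      · intro h3 i hi
        obtain ⟨i, rfl⟩ : ∃ i', i = i' + 1 := ⟨i - 1, by omega⟩
        rw [pos_cns]
        exact h3 i
    have hBk : MeasurableSet {c : ℕ → ℕ | cns k c ∈ B} := measurable_cns k hB
    rw [e1, e2, dg_cons, dg_cons, hst, ports_inner hok hsE hBk, ← mul_assoc]
    congr 1
    have hne : (E.deg (m.org r) : ℝ≥0∞) ≠ 0 := by exact_mod_cast hpos.ne'
    rw [ENNReal.div_eq_inv_mul, mul_assoc, ENNReal.mul_inv_cancel hne (ENNReal.natCast_ne_top _),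
      mul_one]
    push_cast
    rfl
  · rw [if_neg hk, if_neg (by omega), mul_zero]

end PMap

end Pool.Agent.Helper97.Speed
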